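import Pool.Agent.MWV.Stmts

/-!
# Row FRS of squad MWV: one more light
-/

namespace Pool.Agent.MWV.H10

open Pool.Agent.MWV

/-- `d_0 w_1 s d_1 … w_k s d_k` -/
def cw (w : ℕ → List ℕ) (d : ℕ → ℕ) (s : List ℕ) : ℕ → List ℕ
  | 0 => [d 0]
  | k + 1 => cw w d s k ++ (w (k + 1) ++ (s ++ [d (k + 1)]))

theorem cw_congr {w w' : ℕ → List ℕ} {d d' : ℕ → ℕ} {s : List ℕ} : ∀ {k : ℕ},
    (∀ j, 1 ≤ j → j ≤ k → w j = w' j) → (∀ j ≤ k, d j = d' j) → cw w d s k = cw w' d' s k
  | 0, _, h2 => by rw [cw, cw, h2 0 le_rfl]
  | k + 1, h1, h2 => by
    rw [cw, cw, h1 (k + 1) (by omega) le_rfl, h2 (k + 1) le_rfl,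
      cw_congr (fun j hj hk => h1 j hj (by omega)) (fun j hj => h2 j (by omega))]

theorem lgt_nil {u : List ℕ} (h : lgt u = []) : ∀ c ∈ u, c % 3 = 0 := by
  intro c hc
  rw [lgt, List.filter_eq_nil_iff] at h
  have := h c hc
  simpa using this

/-- decomposition of a word at its lights -/
theorem dec : ∀ (k : ℕ) (u : List ℕ), (lgt u).length = k + 1 →
    ∃ (w : ℕ → List ℕ) (last : List ℕ), (∀ j, ∀ c ∈ w j, c % 3 = 0) ∧ (∀ c ∈ last, c % 3 = 0) ∧
      u = w 0 ++ (cw w (fun i => (lgt u).getD i 0) [] k ++ last)
  | 0, u, hu => by
    obtain ⟨c, hc⟩ := List.length_eq_one_iff.mp hu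
    have hc' := hc
    rw [lgt, List.filter_eq_cons_iff] at hc'
    obtain ⟨l1, l2, he, h1, h2, h3⟩ := hc'
    refine ⟨fun _ => l1, l2, ?_, ?_, ?_⟩
    · intro _ c hc
      have := h1 c hc
      simpa using this
    · exact lgt_nil h3
    · rw [hc, cw]
      simpa using he
  | k + 1, u, hu => by
    obtain ⟨D', c, hD⟩ : ∃ D' c, lgt u = D' ++ [c] := by
      have hne : lgt u ≠ [] := by intro h; rw [h] at hu; simp at hu
      exact ⟨_, _, (List.dropLast_append_getLast hne).symm⟩
    have hD'' := hD
    rw [lgt, List.filter_eq_append_iff] at hD''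
    obtain ⟨l1, l2, he, h1, h2⟩ := hD''
    rw [List.filter_eq_cons_iff] at h2
    obtain ⟨m1, m2, he2, h3, h4, h5⟩ := h2
    have h1' : lgt l1 = D' := h1
    have hlen : (lgt l1).length = k + 1 := by
      rw [h1']
      rw [hD, List.length_append, List.length_singleton] at hu
      omega
    obtain ⟨w, last, hw, hl, hl1⟩ := dec k l1 hlen
    refine ⟨fun j => if j = k + 1 then last ++ m1 else w j, m2, ?_, lgt_nil h5, ?_⟩
    · intro j x hx
      simp only at hx
      split at hx
      · rcases List.mem_append.mp hx with hx | hx
        · exact hl x hx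
        · have := h3 x hx
          simpa using this
      · exact hw j x hx
    · rw [cw]
      have e1 : cw (fun j => if j = k + 1 then last ++ m1 else w j)
          (fun i => (lgt u).getD i 0) [] k = cw w (fun i => (lgt l1).getD i 0) [] k := by
        apply cw_congr
        · intro j _ hj
          rw [if_neg (by omega)]
        · intro j hj
          rw [hD, h1', List.getD_append _ _ _ _ (by rw [← h1']; omega)]
      have e2 : (lgt u).getD (k + 1) 0 = c := by
        rw [hD]
        have : k + 1 = D'.length := by rw [← h1']; omega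
        rw [this, List.getD_append_right _ _ _ _ le_rfl]
        simp
      rw [e1]
      simp only [e2, if_true]
      rw [if_neg (by omega)]
      rw [he, he2]
      conv_lhs => rw [hl1]
      simp only [List.append_assoc, List.nil_append, List.cons_append]

/-- `H` is inserted in front of every light -/
def hat (N h : ℕ) (u : List ℕ) : List ℕ := u.flatMap (fun c => if c % 3 = 0 then [c] else
  X N h ++ [c])

theorem hat_append (N h : ℕ) (u v : List ℕ) : hat N h (u ++ v) = hat N h u ++ hat N h v := by
  rw [hat, hat, hat, List.flatMap_append]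

theorem hat_heavy (N h : ℕ) : ∀ {u : List ℕ}, (∀ c ∈ u, c % 3 = 0) → hat N h u = u
  | [], _ => rfl
  | c :: u, hu => by
    rw [hat, List.flatMap_cons, if_pos (hu c List.mem_cons_self)]
    have := hat_heavy N h (u := u) (fun x hx => hu x (List.mem_cons_of_mem _ hx))
    rw [hat] at this
    rw [this]; rfl

theorem hat_cw (N h : ℕ) {w : ℕ → List ℕ} {d : ℕ → ℕ} (hw : ∀ j, ∀ c ∈ w j, c % 3 = 0) :
    ∀ {k : ℕ}, (∀ i ≤ k, d i % 3 ≠ 0) → hat N h (cw w d [] k) = X N h ++ cw w d (X N h) k
  | 0, hd => by
    rw [cw, cw, hat, List.flatMap_singleton, if_neg (hd 0 le_rfl)]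
  | k + 1, hd => by
    rw [cw, cw, hat_append, hat_append, hat_append, hat_heavy N h (hw _),
      hat_cw N h hw (fun i hi => hd i (by omega))]
    have e : hat N h [d (k + 1)] = X N h ++ [d (k + 1)] := by
      rw [hat, List.flatMap_singleton, if_neg (hd _ le_rfl)]
    rw [e]
    simp [hat]

/-- insertion in front of `hat u ++ H` -/
theorem hat_ins (hH : HvyStmt) {N : ℕ} {S : List ℕ → List ℕ → Prop} (wo : Wo N S) {h : ℕ}
    (hh : h % 3 = 0) : ∀ b : List ℕ,
    S (hat N h b ++ X N h) (X N h ++ (hat N h b ++ X N h))
  | [] => by
    refine hH N S wo _ _ ?_ ?_ ?_ ?_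
    · intro a ha; simp [hat] at ha; omega
    · intro a ha; simp [hat] at ha; omega
    · intro a; simp [hat]
    · intro a; simp [hat, List.count_replicate]
      split <;> simp
  | c :: b => by
    have ih := hat_ins hH wo hh b
    by_cases hc : c % 3 = 0
    · have e : hat N h (c :: b) = c :: hat N h b := by
        rw [hat, List.flatMap_cons, if_pos hc]; rfl
      rw [e]
      have h1 : S ([c] ++ (hat N h b ++ X N h)) ([c] ++ (X N h ++ (hat N h b ++ X N h))) :=
        wo.app (wo.refl _) ih
      have h2 : S ([c] ++ X N h) (X N h ++ [c]) := by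
        refine hH N S wo _ _ ?_ ?_ ?_ ?_
        · intro a ha; simp at ha; rcases ha with rfl | ⟨_, rfl⟩ <;> assumption
        · intro a ha; simp at ha; rcases ha with ⟨_, rfl⟩ | rfl <;> assumption
        · intro a; simp only [List.mem_append]; exact or_comm
        · intro a; rw [List.count_append, List.count_append, Nat.add_comm]
      have h3 := wo.app h2 (wo.refl (hat N h b ++ X N h))
      have h4 : S ([c] ++ (X N h ++ (hat N h b ++ X N h)))
          (X N h ++ ([c] ++ (hat N h b ++ X N h))) := by
        simpa only [List.append_assoc] using h3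
      exact wo.trans h1 h4
    · have e : hat N h (c :: b) = X N h ++ c :: hat N h b := by
        rw [hat, List.flatMap_cons, if_neg hc]; simp [hat]
      rw [e]
      have h2 : S (X N h) (X N h ++ X N h) := by
        refine hH N S wo _ _ ?_ ?_ ?_ ?_
        · intro a ha; rw [List.mem_replicate] at ha; rw [ha.2]; exact hh
        · intro a ha; rw [List.mem_append, List.mem_replicate, or_self] at ha; rw [ha.2]; exact hh
        · intro a; rw [List.mem_append, or_self]
        · intro a; rw [List.count_append, List.count_replicate]
          split <;> simp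
      have h3 := wo.app h2 (wo.refl (c :: hat N h b ++ X N h))
      simpa only [List.append_assoc, List.cons_append] using h3

theorem xf (N : ℕ) (F : ℕ → List ℕ) (h : ℕ) (hF : F 0 = [h]) : (X N 0).flatMap F = X N h := by
  induction N with
  | zero => rfl
  | succ n ih =>
    have e : X (n + 1) 0 = 0 :: X n 0 := List.replicate_succ
    have e' : X (n + 1) h = h :: X n h := List.replicate_succ
    rw [e, e', List.flatMap_cons, ih, hF]; rfl

/-- the image of `cr` -/
theorem cr_image {F : ℕ → List ℕ} {w : ℕ → List ℕ} {d : ℕ → ℕ} {s s' : List ℕ}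
    (h1 : ∀ i, F (3 * i + 1) = [d i]) (h2 : ∀ j, 1 ≤ j → F (3 * j + 3) = w j)
    (hs : s.flatMap F = s') : ∀ k, (cr (fun _ => true) s 0 k).flatMap F = cw w d s' k
  | 0 => by rw [cr, cw, List.flatMap_singleton, h1]
  | k + 1 => by
    rw [cr, cw, List.flatMap_append, List.flatMap_append, List.flatMap_append,
      cr_image h1 h2 hs k, hs, List.flatMap_singleton, Nat.zero_add, h1, mk, if_pos rfl,
      List.flatMap_singleton, h2 _ (by omega)]

theorem frs (hH : HvyStmt) (hI : InwStmt) : FrsStmt := by
  intro N S wo k hk hfree hrun
  -- the claim with `H` inserted in front of every light and at the end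
  have main : ∀ (p q u : List ℕ) (h : ℕ), h % 3 = 0 → (lgt u).length = k + 1 → (lgt u).Nodup →
      (∀ c ∈ u, c % 3 ≠ 0 → c ∈ p ∨ c ∈ q) →
      S (p ++ h :: (u ++ h :: q)) (p ++ h :: ((hat N h u ++ X N h) ++ h :: q)) := by
    intro p q u h hh hlen hnd hpq
    obtain ⟨w, last, hw, hl, hu⟩ := dec k u hlen
    set D := lgt u with hD
    have hDl : ∀ a ∈ D, a ∈ u ∧ a % 3 ≠ 0 := by
      intro a ha
      rw [hD, lgt, List.mem_filter] at ha
      exact ⟨ha.1, by simpa using ha.2⟩
    obtain ⟨P, Q, t, hPQ, hF⟩ := hI (p ++ h :: w 0) (last ++ h :: q) D hnd (by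
      intro a ha
      rcases hpq a (hDl a ha).1 (hDl a ha).2 with h1 | h1
      · left; simp [h1]
      · right; simp [h1])
    rw [hlen] at hPQ
    have hR := hrun P Q hPQ
    have hF' := hF (fun a => if a = 0 then [h] else w ((a - 3) / 3))
    obtain ⟨F, hFd⟩ : ∃ F : ℕ → List ℕ, F = fun a => if a % 3 = 0 then
      (if a = 0 then [h] else w ((a - 3) / 3)) else if a % 3 = 1 then [D.getD (a / 3) 0] else t a :=
      ⟨_, rfl⟩
    rw [← hFd] at hF'
    have f0 : F 0 = [h] := by rw [hFd]; simp
    have f1 : ∀ i, F (3 * i + 1) = [D.getD i 0] := by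
      intro i
      have e1 : (3 * i + 1) / 3 = i := by omega
      rw [hFd]
      simp only
      rw [if_neg (by omega), if_pos (by omega), e1]
    have f3 : ∀ j, 1 ≤ j → F (3 * j + 3) = w j := by
      intro j hj
      have e1 : (3 * j + 3 - 3) / 3 = j := by omega
      rw [hFd]
      simp only
      rw [if_pos (by omega), if_neg (by omega), e1]
    have hsub := wo.sub F (by
      intro a ha x hx
      rw [hFd] at hx
      simp only at hx
      rw [if_pos ha] at hx
      split at hx
      · rw [List.mem_singleton] at hx; rw [hx]; exact hh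
      · exact hw _ x hx) hR
    rw [hF', hF', List.flatMap_append, List.flatMap_append, List.flatMap_append,
      List.flatMap_append, xf N F h f0, cr_image (w := w) (d := fun i => D.getD i 0) f1 f3
        (List.flatMap_nil : ([] : List ℕ).flatMap F = []) k,
      cr_image (w := w) (d := fun i => D.getD i 0) f1 f3 (xf N F h f0) k] at hsub
    -- heavy words next to the block
    have hv1 : S (h :: w 0) (h :: (w 0 ++ X N h)) := by
      refine hH N S wo _ _ ?_ ?_ ?_ ?_
      · intro a ha
        rcases List.mem_cons.mp ha with rfl | ha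
        · exact hh
        · exact hw 0 a ha
      · intro a ha
        rcases List.mem_cons.mp ha with rfl | ha
        · exact hh
        · rcases List.mem_append.mp ha with ha | ha
          · exact hw 0 a ha
          · rw [List.mem_replicate] at ha; rw [ha.2]; exact hh
      · intro a
        simp only [List.mem_cons, List.mem_append, List.mem_replicate]
        tauto
      · intro a
        rw [List.count_cons, List.count_cons, List.count_append, List.count_replicate]
        by_cases hah : h = a
        · subst hah; simp; rw [show (w 0).count h + N + 1 = ((w 0).count h + 1) + N by omega,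
            Nat.add_mod_right]
        · simp [hah]
    have hv2 : S (last ++ [h]) (X N h ++ (last ++ [h])) := by
      refine hH N S wo _ _ ?_ ?_ ?_ ?_
      · intro a ha
        rcases List.mem_append.mp ha with ha | ha
        · exact hl a ha
        · rw [List.mem_singleton] at ha; rw [ha]; exact hh
      · intro a ha
        rcases List.mem_append.mp ha with ha | ha
        · rw [List.mem_replicate] at ha; rw [ha.2]; exact hh
        · rcases List.mem_append.mp ha with ha | ha
          · exact hl a ha
          · rw [List.mem_singleton] at ha; rw [ha]; exact hh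
      · intro a
        simp only [List.mem_append, List.mem_replicate, List.mem_singleton]
        tauto
      · intro a
        rw [List.count_append (l₁ := X N h), List.count_replicate]
        by_cases hah : h = a
        · subst hah; simp
        · simp [hah]
    have hv3 : S (X N h ++ (last ++ [h])) (last ++ (X N h ++ [h])) := by
      refine hH N S wo _ _ ?_ ?_ ?_ ?_
      · intro a ha
        rcases List.mem_append.mp ha with ha | ha
        · rw [List.mem_replicate] at ha; rw [ha.2]; exact hh
        · rcases List.mem_append.mp ha with ha | ha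
          · exact hl a ha
          · rw [List.mem_singleton] at ha; rw [ha]; exact hh
      · intro a ha
        rcases List.mem_append.mp ha with ha | ha
        · exact hl a ha
        · rcases List.mem_append.mp ha with ha | ha
          · rw [List.mem_replicate] at ha; rw [ha.2]; exact hh
          · rw [List.mem_singleton] at ha; rw [ha]; exact hh
      · intro a
        simp only [List.mem_append]
        tauto
      · intro a
        simp only [List.count_append]
        congr 1
        omega
    have hdl : ∀ i ≤ k, D.getD i 0 % 3 ≠ 0 := by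
      intro i hi
      have hi' : i < D.length := by rw [hlen]; omega
      rw [List.getD_eq_getElem D 0 hi']
      exact (hDl _ (List.getElem_mem _)).2
    have hhat : hat N h u = w 0 ++ ((X N h ++ cw w (fun i => D.getD i 0) (X N h) k) ++ last) := by
      conv_lhs => rw [hu]
      rw [hat_append, hat_append, hat_heavy N h (hw 0), hat_heavy N h hl, hat_cw N h hw hdl]
    rw [hhat]
    have s1 : S (p ++ h :: (u ++ h :: q))
        ((p ++ h :: w 0) ++ ((X N h ++ (cw w (fun i => D.getD i 0) [] k ++ X N h)) ++
          (last ++ h :: q))) := by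
      have h1 := wo.app (wo.app (wo.app (wo.app (wo.refl p) hv1)
        (wo.refl (cw w (fun i => D.getD i 0) [] k))) hv2) (wo.refl q)
      conv_lhs => rw [hu]
      simpa only [List.append_assoc, List.cons_append, List.nil_append] using h1
    have s2 : S ((p ++ h :: w 0) ++ ((X N h ++ (cw w (fun i => D.getD i 0) (X N h) k ++ X N h)) ++
          (last ++ h :: q)))
        (p ++ h :: (((w 0 ++ ((X N h ++ cw w (fun i => D.getD i 0) (X N h) k) ++ last)) ++ X N h)
          ++ h :: q)) := by
      have h1 := wo.app (wo.app (wo.refl ((p ++ h :: w 0) ++ (X N h ++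
        cw w (fun i => D.getD i 0) (X N h) k))) hv3) (wo.refl q)
      simpa only [List.append_assoc, List.cons_append, List.nil_append] using h1
    exact wo.trans s1 (wo.trans hsub s2)
  intro p q a b h hh hlen hnd hpq
  rcases Nat.lt_or_ge (lgt (a ++ b)).length (k + 1) with h1 | h1
  · exact hfree p q a b h hh (by omega) hnd hpq
  · have hlen' : (lgt (a ++ b)).length = k + 1 := by omega
    have hXh : ∀ c ∈ X N h, c % 3 = 0 := by
      intro c hc
      rw [List.mem_replicate] at hc
      rw [hc.2]; exact hh
    have hl2 : lgt (a ++ (X N h ++ b)) = lgt (a ++ b) := by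
      have : (X N h).filter (fun a => decide (a % 3 ≠ 0)) = [] := by
        rw [List.filter_eq_nil_iff]
        intro c hc
        simp [hXh c hc]
      rw [lgt, lgt, List.filter_append, List.filter_append, List.filter_append, this,
        List.nil_append]
    have m1 := main p q (a ++ b) h hh hlen' hnd hpq
    have m2 := main p q (a ++ (X N h ++ b)) h hh (by rw [hl2]; exact hlen') (by rw [hl2]; exact hnd)
      (by
        intro c hc hc3
        refine hpq c ?_ hc3
        rcases List.mem_append.mp hc with h2 | h2
        · exact List.mem_append_left _ h2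
        · rcases List.mem_append.mp h2 with h2 | h2
          · exact absurd (hXh c h2) hc3
          · exact List.mem_append_right _ h2)
    have m3 : S (hat N h (a ++ b) ++ X N h) (hat N h (a ++ (X N h ++ b)) ++ X N h) := by
      rw [hat_append, hat_append, hat_append, hat_heavy N h hXh]
      have := wo.app (wo.refl (hat N h a)) (hat_ins hH wo hh b)
      simpa only [List.append_assoc] using this
    have m4 := wo.app (wo.app (wo.refl (p ++ [h])) m3) (wo.refl (h :: q))
    have m5 : S (p ++ h :: ((hat N h (a ++ b) ++ X N h) ++ h :: q))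
        (p ++ h :: ((hat N h (a ++ (X N h ++ b)) ++ X N h) ++ h :: q)) := by
      simpa only [List.append_assoc, List.cons_append, List.nil_append] using m4
    have m6 := wo.trans (wo.trans m1 m5) (wo.symm m2)
    simpa only [List.append_assoc] using m6

end Pool.Agent.MWV.H10
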