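import Pool.Agent.MWV.Stmts

/-!
# Row INW of squad MWV: contexts are substitution instances of words with isolated places
-/

namespace Pool.Agent.MWV.H10

open Pool.Agent.MWV

/-- the skeleton lemma -/
theorem skel (f : ℕ → ℕ) : ∀ (p S : List ℕ), S.Nodup → (∀ e ∈ S, f e ∈ p) →
    (∀ e ∈ S, ∀ e' ∈ S, f e = f e' → e = e') →
    ∃ (P g0 : List ℕ) (G : ℕ → List ℕ), P.Perm S ∧
      p = g0 ++ P.flatMap (fun e => f e :: G e) := by
  intro p
  induction p with
  | nil =>
    intro S _ h _
    refine ⟨[], [], fun _ => [], ?_, by simp⟩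
    have : S = [] := by
      rw [List.eq_nil_iff_forall_not_mem]
      intro a ha
      have := h a ha
      simp at this
    rw [this]
  | cons c p ih =>
    intro S hn h hi
    by_cases hc : ∃ e ∈ S, f e = c
    · obtain ⟨e, he, hec⟩ := hc
      obtain ⟨P, g0, G, hP, hp⟩ := ih (S.erase e) (hn.erase e) (by
          intro e' he'
          have h1 := (hn.mem_erase_iff).mp he'
          rcases List.mem_cons.mp (h e' h1.2) with h2 | h2
          · exact absurd (hi e' h1.2 e he (h2.trans hec.symm)) h1.1
          · exact h2) (by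
          intro a ha b hb hab
          exact hi a (List.mem_of_mem_erase ha) b (List.mem_of_mem_erase hb) hab)
      refine ⟨e :: P, [], fun x => if x = e then g0 else G x, ?_, ?_⟩
      · exact (hP.cons e).trans (List.perm_cons_erase he).symm
      · rw [List.flatMap_cons, List.nil_append]
        beta_reduce
        rw [if_pos rfl, hec, List.cons_append]
        congr 1
        rw [hp]
        congr 1
        apply List.flatMap_congr
        intro x hx
        have hxe : x ≠ e := ((hn.mem_erase_iff).mp (hP.mem_iff.mp hx)).1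
        rw [if_neg hxe]
    · obtain ⟨P, g0, G, hP, hp⟩ := ih S hn (by
          intro e' he'
          rcases List.mem_cons.mp (h e' he') with h2 | h2
          · exact absurd ⟨e', he', h2⟩ hc
          · exact h2) hi
      refine ⟨P, c :: g0, G, hP, ?_⟩
      rw [List.cons_append]
      congr 1

theorem rev_flatMap (g : ℕ → List ℕ) (P : List ℕ) :
    (P.flatMap g).reverse = P.reverse.flatMap (fun e => (g e).reverse) := by
  induction P with
  | nil => simp
  | cons x P ih =>
    rw [List.flatMap_cons, List.reverse_append, ih, List.reverse_cons, List.flatMap_append,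
      List.flatMap_singleton]

theorem inw : InwStmt := by
  intro p q D hD hpq
  classical
  obtain ⟨f, hf⟩ : ∃ f : ℕ → ℕ, f = fun e => D.getD e 0 := ⟨_, rfl⟩
  have hf' : ∀ e (he : e < D.length), f e = D[e] := by
    intro e he
    rw [hf]
    exact List.getD_eq_getElem D 0 he
  have hinj : ∀ e < D.length, ∀ e' < D.length, f e = f e' → e = e' := by
    intro e he e' he' h
    rw [hf' e he, hf' e' he'] at h
    exact (hD.getElem_inj_iff).mp h
  have hS1 : ∀ e ∈ (List.range D.length).filter (fun e => decide (f e ∈ p)),
      e < D.length ∧ f e ∈ p := by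
    intro e he
    rw [List.mem_filter, List.mem_range, decide_eq_true_eq] at he
    exact he
  have hS2 : ∀ e ∈ (List.range D.length).filter (fun e => !decide (f e ∈ p)),
      e < D.length ∧ f e ∉ p := by
    intro e he
    rw [List.mem_filter, List.mem_range, Bool.not_eq_true', decide_eq_false_iff_not] at he
    exact he
  obtain ⟨P, g0, G, hP, hp⟩ := skel f p.reverse _ ((List.nodup_range (n := D.length)).filter
    (fun e => decide (f e ∈ p))) (fun e he => List.mem_reverse.mpr (hS1 e he).2)
    (fun e he e' he' h => hinj e (hS1 e he).1 e' (hS1 e' he').1 h)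
  obtain ⟨Q, g0', G', hQ, hq⟩ := skel f q _ ((List.nodup_range (n := D.length)).filter
    (fun e => !decide (f e ∈ p))) (fun e he => by
      have h1 := hS2 e he
      have h2 : f e ∈ D := by rw [hf' e h1.1]; exact List.getElem_mem _
      rcases hpq _ h2 with h3 | h3
      · exact absurd h3 h1.2
      · exact h3)
    (fun e he e' he' h => hinj e (hS2 e he).1 e' (hS2 e' he').1 h)
  have hPp : ∀ e ∈ P, f e ∈ p := fun e he => (hS1 e (hP.mem_iff.mp he)).2
  have hQp : ∀ e ∈ Q, f e ∉ p := fun e he => (hS2 e (hQ.mem_iff.mp he)).2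
  have hp2 : p = P.reverse.flatMap (fun e => (G e).reverse ++ [f e]) ++ g0.reverse := by
    have h1 := congrArg List.reverse hp
    rw [List.reverse_reverse, List.reverse_append, rev_flatMap] at h1
    rw [h1]
    congr 1
    apply List.flatMap_congr
    intro e _
    rw [List.reverse_cons]
  obtain ⟨t, ht⟩ : ∃ t : ℕ → List ℕ, ∀ c, t c = if c = 2 then g0.reverse else
    if c = 5 then g0' else
      if f ((c - 8) / 3) ∈ p then (G ((c - 8) / 3)).reverse else G' ((c - 8) / 3) :=
    ⟨_, fun _ => rfl⟩
  have t2 : t 2 = g0.reverse := by rw [ht, if_pos rfl]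
  have t5 : t 5 = g0' := by rw [ht, if_neg (by norm_num), if_pos rfl]
  have t8 : ∀ e, t (3 * e + 8) = if f e ∈ p then (G e).reverse else G' e := by
    intro e
    have e1 : (3 * e + 8 - 8) / 3 = e := by omega
    rw [ht, if_neg (by omega), if_neg (by omega), e1]
  refine ⟨P.reverse, Q, t, ?_, ?_⟩
  · exact (((List.reverse_perm P).trans hP).append hQ).trans (List.filter_append_perm _ _)
  · intro hh L
    obtain ⟨F, hF⟩ : ∃ F : ℕ → List ℕ, ∀ a, F a = if a % 3 = 0 then hh a else
      if a % 3 = 1 then [D.getD (a / 3) 0] else t a := ⟨_, fun _ => rfl⟩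
    have hFF : (fun a => if a % 3 = 0 then hh a else
      if a % 3 = 1 then [D.getD (a / 3) 0] else t a) = F := by
      funext a
      rw [hF]
    rw [hFF]
    have F1 : ∀ e, F (3 * e + 1) = [f e] := by
      intro e
      have e1 : (3 * e + 1) / 3 = e := by omega
      rw [hF, if_neg (by omega), if_pos (by omega), e1, hf]
    have F8 : ∀ e, F (3 * e + 8) = t (3 * e + 8) := by
      intro e
      rw [hF, if_neg (by omega), if_neg (by omega)]
    have F2 : F 2 = t 2 := by rw [hF]; simp
    have F5 : F 5 = t 5 := by rw [hF]; simp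
    have k1 : (pl P.reverse).flatMap F = P.reverse.flatMap (fun e => (G e).reverse ++ [f e]) := by
      rw [pl, List.flatMap_assoc]
      apply List.flatMap_congr
      intro e he
      rw [List.flatMap_cons, List.flatMap_singleton, F1, F8, t8,
        if_pos (hPp e (List.mem_reverse.mp he))]
    have k2 : (pr Q).flatMap F = Q.flatMap (fun e => f e :: G' e) := by
      rw [pr, List.flatMap_assoc]
      apply List.flatMap_congr
      intro e he
      rw [List.flatMap_cons, List.flatMap_singleton, F1, F8, t8, if_neg (hQp e he)]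
      rfl
    rw [W, List.flatMap_append, List.flatMap_cons, List.flatMap_append, List.flatMap_cons, k1, k2,
      F2, F5, t2, t5]
    clear k1 k2 F1 F2 F5 F8 hF hFF t2 t5 t8 ht hPp hQp hS1 hS2 hP hQ
    generalize L.flatMap F = L'
    conv_rhs => rw [hp2, hq]
    simp only [List.append_assoc]

end Pool.Agent.MWV.H10
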